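import Pool.Agent.Run7.h992.Main

/-!
# Exponents divisible by three over quadratic fields: reduction to equations over `ℚ`

Let `m` be prime to `6`. If `x ^ (3 m) + y ^ (3 m) = z ^ (3 m)` has a solution with `x y z ≠ 0` in some
quadratic field, then Fermat's equation with the exponent `m` has a nontrivial solution in integers,
or there are integers `a, b, c, d`, not zero, `a` prime to `3 b`, with

  `a ^ m - c ^ m = 3 ^ ((m - 1) / 2) b ^ m`,
  `(a ^ m) ^ 2 + a ^ m (3 ^ ((m - 1) / 2) b ^ m) + (3 ^ ((m - 1) / 2) b ^ m) ^ 2 = d ^ m`.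

Proof. Let `w = - z`. The point `(x ^ m : y ^ m : w ^ m)` of the Fermat cubic and its conjugate are on a
line over `ℚ`, which meets the cubic in a third, rational point. So the line contains one of the
three rational points with a coordinate zero, and after a permutation `x ^ m + y ^ m = r w ^ m` with
`r` rational. Then `(x / w) ^ m` and `(y / w) ^ m` are conjugate, and since `K` contains no `m`-th root of
unity but one, `x / w` and `y / w` are conjugate; their product `s` is rational and
`3 r s ^ m = r ^ 3 + 1`. Let `r = - a / b`, `s = u / v` in lowest terms. Then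
`3 a b ^ 2 u ^ m = (a ^ 3 - b ^ 3) v ^ m`, and the rest is unique factorization in the integers.
-/

set_option autoImplicit false

namespace Pool.Agent.Results.MP_50a406_nt.DivisibleByThree

theorem result (K : Type) [Field K] [NumberField K] (hK : Module.finrank ℚ K = 2)
    (m : ℕ) (hm : m.Coprime 6) (x y z : K) (hx : x ≠ 0) (hy : y ≠ 0) (hz : z ≠ 0)
    (h : x ^ (3 * m) + y ^ (3 * m) = z ^ (3 * m)) :
    (∃ a b c : ℤ, a ≠ 0 ∧ b ≠ 0 ∧ c ≠ 0 ∧ a ^ m + b ^ m = c ^ m) ∨
    ∃ a b c d : ℤ, a ≠ 0 ∧ b ≠ 0 ∧ c ≠ 0 ∧ d ≠ 0 ∧ IsCoprime a (3 * b) ∧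
      a ^ m - c ^ m = 3 ^ ((m - 1) / 2) * b ^ m ∧
      (a ^ m) ^ 2 + a ^ m * (3 ^ ((m - 1) / 2) * b ^ m) + (3 ^ ((m - 1) / 2) * b ^ m) ^ 2 =
        d ^ m := by
  by_cases h5 : 5 ≤ m
  · exact Run7.h992.reduction hK hm h5 hx hy hz h
  · have h1 : m = 0 ∨ m = 1 ∨ m = 2 ∨ m = 3 ∨ m = 4 := by omega
    rcases h1 with rfl | rfl | rfl | rfl | rfl
    · exact absurd hm (by decide)
    · exact Or.inl ⟨1, 1, 2, by norm_num, by norm_num, by norm_num, by norm_num⟩
    · exact absurd hm (by decide)
    · exact absurd hm (by decide)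
    · exact absurd hm (by decide)

end Pool.Agent.Results.MP_50a406_nt.DivisibleByThree
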