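import Pool.Agent.Run7.h361.Dens
import Pool.Agent.Results.MP_50a406_nt.AllQuadraticFields
import Pool.Agent.Results.MP_50a406_nt.WieferichQuadratic

/-!
# The first case over all quadratic fields for a positive proportion of the prime exponents

Unconditionally, for all large `x` there are at least `x / (51 log x)` primes `p ≤ x` with the
following two properties, simultaneously for all quadratic fields `K`.

* If two ramifies in `K`, the first case of Fermat's Last Theorem holds over `K` for all exponents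
  divisible by `p`.
* If the even number `n` is divisible by `p` and by the largest power of two (or by the largest
  power of three) that divides the multiple of `6` among `p - 1` and `p + 1`, the first case of
  Fermat's Last Theorem holds over `K` for the exponent `n`.

The primes are those with `2 ^ (p - 1)` not congruent to `1` modulo `p ^ 2`; they have positive
lower density by a theorem of helper257 and helper361 (`Run7.h361.density`). The two criteria are
the starting results `WieferichQuadratic` and `AllQuadraticFields`.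
-/

set_option autoImplicit false

namespace Pool.Agent.Results.MP_50a406_nt.InfinitelyManyExponents

open NumberField IsDedekindDomain

/-- The first case (with respect to the prime `p`) of Fermat's Last Theorem for the exponent `n`
over `K`: in every solution without zero coordinates the valuations of `x, y, z` at some prime `v`
above `p` are not all equal; that is, `v` divides `x y z` after common factors are removed. -/
def FirstCase (K : Type) [Field K] [NumberField K] (p n : ℕ) : Prop :=
  ∀ x y z : K, x ^ n + y ^ n = z ^ n → x ≠ 0 → y ≠ 0 → z ≠ 0 →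
    ∃ v : HeightOneSpectrum (𝓞 K), ((p : ℕ) : 𝓞 K) ∈ v.asIdeal ∧
      ¬ (v.valuation K x = v.valuation K y ∧ v.valuation K y = v.valuation K z)

/-- the multiple of six among `p - 1` and `p + 1` (`p > 3` prime) -/
def six (p : ℕ) : ℕ := if p % 3 = 1 then p - 1 else p + 1

/-- The property of the prime exponent `p`. -/
def Good (p : ℕ) : Prop :=
  ∀ (K : Type) [Field K] [NumberField K], Module.finrank ℚ K = 2 → ∀ n : ℕ, p ∣ n →
    (Even (NumberField.discr K) → FirstCase K p n) ∧
    (Even n → ((∃ a : ℕ, 2 ^ a ∣ n ∧ ¬ 2 ^ (a + 1) ∣ six p) ∨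
        ∃ c : ℕ, 3 ^ c ∣ n ∧ ¬ 3 ^ (c + 1) ∣ six p) → FirstCase K p n)

theorem good_of {p : ℕ} (hp : p.Prime) (hN : 13 < p) (hW : ¬ p ^ 2 ∣ 2 ^ (p - 1) - 1) : Good p := by
  intro K _ _ hK n hn
  refine ⟨fun hd x y z h hx hy hz => ?_, fun he h6 x y z h hx hy hz => ?_⟩
  · exact Pool.Agent.Results.MP_50a406_nt.WieferichQuadratic.result K hK p n hp (by omega) hW
      (Or.inl hd) hn x y z h hx hy hz
  · exact Pool.Agent.Results.MP_50a406_nt.AllQuadraticFields.result K hK p n hp (by omega) hn h6
      (Or.inl ⟨he, by omega, hW⟩) x y z h hx hy hz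

theorem result :
    ∃ x₀ : ℕ, ∀ x : ℕ, x₀ ≤ x →
      (x : ℝ) / (51 * Real.log x) ≤ ({p : ℕ | p ≤ x ∧ p.Prime ∧ Good p}.ncard : ℝ) := by
  obtain ⟨x₁, h1⟩ := Run7.h361.density
  -- `x / log x` is large
  have h2 : ∀ᶠ y : ℝ in Filter.atTop, Real.log y ≤ y ^ (1 / 2 : ℝ) := by
    have := (isLittleO_log_rpow_atTop (by norm_num : (0 : ℝ) < 1 / 2)).bound
      (by norm_num : (0 : ℝ) < 1)
    filter_upwards [this, Filter.eventually_ge_atTop 1] with y hy hy1
    rw [Real.norm_eq_abs, Real.norm_eq_abs, one_mul, abs_of_nonneg (Real.log_nonneg hy1),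
      abs_of_nonneg (by positivity)] at hy
    exact hy
  obtain ⟨y₀, hy₀⟩ := Filter.eventually_atTop.1 h2
  refine ⟨max (max x₁ (⌈y₀⌉₊)) (35700 ^ 2), fun x hx => ?_⟩
  have hx1 : x₁ ≤ x := (le_max_left _ _).trans ((le_max_left _ _).trans hx)
  have hx2 : y₀ ≤ x := (Nat.le_ceil y₀).trans (by
    exact_mod_cast (le_max_right _ _).trans ((le_max_left _ _).trans hx))
  have hx3 : (35700 : ℝ) ^ 2 ≤ x := by exact_mod_cast (le_max_right _ _).trans hx
  have h3 := h1 x hx1
  have hlog := hy₀ x hx2
  have hxpos : (0 : ℝ) < x := by linarith [sq_nonneg (35700 : ℝ), (by norm_num : (0:ℝ) < 35700 ^ 2)]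
  have hlogpos : 0 < Real.log x := Real.log_pos (by
    have : (1 : ℝ) < 35700 ^ 2 := by norm_num
    linarith)
  have hsqrt : (35700 : ℝ) ≤ (x : ℝ) ^ (1 / 2 : ℝ) := by
    have : ((35700 : ℝ) ^ 2) ^ (1 / 2 : ℝ) ≤ (x : ℝ) ^ (1 / 2 : ℝ) :=
      Real.rpow_le_rpow (by positivity) hx3 (by norm_num)
    have h4 : ((35700 : ℝ) ^ 2) ^ (1 / 2 : ℝ) = 35700 := by
      rw [← Real.sqrt_eq_rpow, Real.sqrt_sq (by norm_num)]
    rwa [h4] at this
  have hxx : (x : ℝ) = (x : ℝ) ^ (1 / 2 : ℝ) * (x : ℝ) ^ (1 / 2 : ℝ) := by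
    rw [← Real.rpow_add hxpos]; norm_num
  have h5 : 35700 ≤ (x : ℝ) / Real.log x := by
    rw [le_div_iff₀ hlogpos]
    calc 35700 * Real.log x ≤ (x : ℝ) ^ (1 / 2 : ℝ) * (x : ℝ) ^ (1 / 2 : ℝ) := by
          apply mul_le_mul hsqrt hlog hlogpos.le (by positivity)
      _ = x := hxx.symm
  -- compare the two sets
  set A : Set ℕ := {p : ℕ | p ≤ x ∧ p.Prime ∧ ¬ p ^ 2 ∣ 2 ^ (p - 1) - 1} with hA
  set B : Set ℕ := {p : ℕ | p ≤ x ∧ p.Prime ∧ Good p} with hB
  have hBfin : B.Finite := (Set.finite_Iic x).subset fun p hp => hp.1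
  have hsub : A ⊆ B ∪ (Finset.range 14 : Set ℕ) := by
    intro p hp
    by_cases h : 13 < p
    · exact Or.inl ⟨hp.1, hp.2.1, good_of hp.2.1 h hp.2.2⟩
    · right
      simp only [Finset.coe_range, Set.mem_Iio]
      omega
  have hcard : A.ncard ≤ B.ncard + 14 := by
    calc A.ncard ≤ (B ∪ (Finset.range 14 : Set ℕ)).ncard :=
          Set.ncard_le_ncard hsub (hBfin.union (Finset.finite_toSet _))
      _ ≤ B.ncard + (Finset.range 14 : Set ℕ).ncard := Set.ncard_union_le _ _
      _ = B.ncard + 14 := by rw [Set.ncard_coe_finset, Finset.card_range]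
  have hcard' : (A.ncard : ℝ) ≤ B.ncard + 14 := by exact_mod_cast hcard
  have e1 : (x : ℝ) / (50 * Real.log x) = ((x : ℝ) / Real.log x) / 50 := by
    field_simp
  have e2 : (x : ℝ) / (51 * Real.log x) = ((x : ℝ) / Real.log x) / 51 := by
    field_simp
  rw [e1] at h3
  rw [e2]
  linarith

end Pool.Agent.Results.MP_50a406_nt.InfinitelyManyExponents
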