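import Pool.Agent.Run7.h197.D.Fermat3
import Pool.Agent.W7.FH.Qm

/-!
# MP_50a406_nt: in a nontrivial solution the three terms have almost the same size and norm

Let `D, M ≥ 1`. There are `n₀` and `Λ` such that the following holds for ALL number fields `K` of degree
at most `D` (for instance all quadratic fields), all `n ≥ n₀`, all nonzero `w₀, w₁, w₂` in the ring of
integers of `K` with `w₀^n + w₁^n = w₂^n`, not both `w₀/w₂` and `w₁/w₂` roots of unity, and all finite
sets `S` of prime ideals with `Λ ∑ N(v) ≤ n`, the sum over `v` in `S` (for instance the set of all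
prime ideals of norm at most `c √n`). Let `g` be the ideal `(w₀, w₁, w₂)` and `H` the height of
`(w₀ : w₁ : w₂)` (with respect to `K`).

* The product of the quotients `max(|w₀|, |w₁|, |w₂|) / |w_i|` over the archimedean places (with
  multiplicities) and the places in `S` is at most `H(w_k/w_j)^(1/M)`, for all `{i, j, k} = {0, 1, 2}`. In
  particular the three terms have the same absolute value, up to a factor `H^(1/M)`, at every
  archimedean place.
* The norms of the integral ideals `(w_i) / g` are at most `H`; the norms of their parts prime to `S` are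
  at least `H^(1 - 1/M)`.
* If `K` is quadratic and `n` is prime to `6`, the norms of the parts of `(w_i) / g` prime to `S`
  are at least `2^((n - 2) (1 - 1/M))`.

For the equations `a x^n + b y^n + c z^n = 0` over `K` with `n > (2 + log H(c/b))^κ`, where `κ` depends
only on `D` and `M`: if `z/y` is not a root of unity, then `|a x^n / b y^n| > H(z/y)^(-n/M)` at every
archimedean place.

The proofs use lower bounds for linear forms in logarithms uniform in all number fields of bounded
degree (`Run7.h197.U`, `Run7.h197.D`; no known theorem of this kind is assumed, everything is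
proved in Lean) at the archimedean places and an elementary bound at the others. The last of the three
statements uses also the lower bound `H ≥ 2^(n - 2)` of the file `ExponentialHeight`.
-/

set_option autoImplicit false

open NumberField Height IsDedekindDomain

namespace Pool.Agent.Results.MP_50a406_nt.SizesOfTheTerms

variable {K : Type} [Field K] [NumberField K]

/-- The norm of the ideal `g = (w₀, w₁, w₂)`. -/
noncomputable def content (w : Fin 3 → 𝓞 K) : ℝ :=
  (Ideal.absNorm (Ideal.span (Set.range w)) : ℝ)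

/-- The absolute value of the norm of `x`. -/
noncomputable def absNorm (x : 𝓞 K) : ℝ := |((Algebra.norm ℚ (x : K) : ℚ) : ℝ)|

/-- The height of the point `(w₀ : w₁ : w₂)`. -/
noncomputable def height (w : Fin 3 → 𝓞 K) : ℝ :=
  mulHeight ![(w 0 : K), (w 1 : K), (w 2 : K)]

/-- The quotient `max(|w₀|, |w₁|, |w₂|) / |w_i|` for the absolute value `v`. -/
noncomputable def ratio (w : Fin 3 → 𝓞 K) (i : Fin 3) (v : AbsoluteValue K ℝ) : ℝ :=
  max (max (v (w 0 : K)) (v (w 1 : K))) (v (w 2 : K)) / v (w i : K)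

/-- The product of these quotients over the archimedean places. -/
noncomputable def archPart (w : Fin 3 → 𝓞 K) (i : Fin 3) : ℝ :=
  ∏ v : InfinitePlace K, ratio w i v.1 ^ v.mult

/-- The product of these quotients over the places in `S`: the norm of the `S`-part of the ideal
`(w_i) / g`. -/
noncomputable def part (S : Finset (HeightOneSpectrum (𝓞 K))) (w : Fin 3 → 𝓞 K) (i : Fin 3) : ℝ :=
  ∏ v ∈ S, ratio w i (FinitePlace.mk v).1

omit [NumberField K] in
theorem one_le_ratio {w : Fin 3 → 𝓞 K} {i : Fin 3} (hi : w i ≠ 0) (v : AbsoluteValue K ℝ) :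
    1 ≤ ratio w i v := by
  have h0 : (w i : K) ≠ 0 := RingOfIntegers.coe_ne_zero_iff.2 hi
  rw [ratio, one_le_div (v.pos h0)]
  fin_cases i
  · exact (le_max_left _ _).trans (le_max_left _ _)
  · exact (le_max_right _ _).trans (le_max_left _ _)
  · exact le_max_right _ _

/-- **The sizes and the norms of the terms.** -/
theorem result :
    (∀ D M : ℕ, 1 ≤ M → ∃ κ : ℕ, ∀ (K : Type) [Field K] [NumberField K],
      Module.finrank ℚ K ≤ D → ∀ (a b c x y z : K) (n : ℕ), a ≠ 0 → b ≠ 0 → c ≠ 0 → x ≠ 0 → y ≠ 0 →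
      z ≠ 0 → a * x ^ n + b * y ^ n + c * z ^ n = 0 → (∀ k : ℕ, 1 ≤ k → (z / y) ^ k ≠ 1) →
      (2 + Real.log (mulHeight₁ (c / b))) ^ κ < n → ∀ φ : K →+* ℂ,
      1 < mulHeight₁ (z / y) ^ n * ‖φ (a * x ^ n) / φ (b * y ^ n)‖ ^ M) ∧
    (∀ D M : ℕ, 1 ≤ M → ∃ n₀ Λ : ℕ, ∀ (K : Type) [Field K] [NumberField K],
      Module.finrank ℚ K ≤ D → ∀ (w : Fin 3 → 𝓞 K) (n : ℕ), (∀ i, w i ≠ 0) →
      w 0 ^ n + w 1 ^ n = w 2 ^ n →
      (¬ ∃ m : ℕ, 0 < m ∧ ((w 0 : K) / w 2) ^ m = 1 ∧ ((w 1 : K) / w 2) ^ m = 1) → n₀ ≤ n →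
      ∀ S : Finset (HeightOneSpectrum (𝓞 K)), Λ * ∑ v ∈ S, Ideal.absNorm v.asIdeal ≤ n →
      (∀ i j k : Fin 3, i ≠ j → j ≠ k → i ≠ k →
        (archPart w i * part S w i) ^ M ≤ mulHeight₁ ((w k : K) / w j)) ∧
      ∀ i : Fin 3, absNorm (w i) ≤ height w * content w ∧
        height w ^ (M - 1) * (content w * part S w i) ^ M ≤ absNorm (w i) ^ M ∧
        (Module.finrank ℚ K = 2 → Nat.Coprime n 6 →
          (2 : ℝ) ^ ((n - 2) * (M - 1)) * (content w * part S w i) ^ M ≤ absNorm (w i) ^ M)) := by
  refine ⟨Run7.h197.D.terms_size, ?_⟩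
  intro D M hM
  obtain ⟨n₁, Λ, h1⟩ := Run7.h197.D.places_cmp D M
  refine ⟨n₁ + 5, Λ, ?_⟩
  intro K _ _ hKD w n hw heq hnt hn S hS
  have hwK : ∀ l, (w l : K) ≠ 0 := fun l => RingOfIntegers.coe_ne_zero_iff.2 (hw l)
  have heqK : (w 0 : K) ^ n + (w 1 : K) ^ n = (w 2 : K) ^ n := by
    exact_mod_cast congrArg (fun t : 𝓞 K => (t : K)) heq
  have hw0 : w ≠ 0 := fun h0 => hw 0 (congrFun h0 0)
  have hvec : (fun j => (w j : K)) = ![(w 0 : K), (w 1 : K), (w 2 : K)] := by
    funext j
    fin_cases j <;> rfl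
  have hht : height w = mulHeight (fun j => (w j : K)) := by rw [height, hvec]
  have hnorm : ∀ i, absNorm (w i) = (Ideal.absNorm (Ideal.span {w i}) : ℝ) := by
    intro i
    rw [absNorm, Ideal.absNorm_span_singleton, ← Algebra.coe_norm_int (w i)]
    push_cast
    rw [Nat.cast_natAbs]
    push_cast
    rfl
  have hH1 : 1 ≤ height w := one_le_mulHeight _
  have hc0 : 0 ≤ content w := Nat.cast_nonneg _
  have hpart0 : ∀ i, 0 ≤ part S w i := fun i =>
    Finset.prod_nonneg fun v _ => zero_le_one.trans (one_le_ratio (hw i) _)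
  -- the places
  have hA : ∀ i j k : Fin 3, i ≠ j → j ≠ k → i ≠ k →
      (archPart w i * part S w i) ^ M ≤ mulHeight₁ ((w k : K) / w j) := by
    intro i j k hij hjk hik
    have hs1 : ∀ l : Fin 3, (![1, 1, -1] : Fin 3 → K) l = 1 ∨ (![1, 1, -1] : Fin 3 → K) l = -1 := by
      intro l
      fin_cases l
      · exact Or.inl rfl
      · exact Or.inl rfl
      · exact Or.inr rfl
    have hall : ∀ i j k : Fin 3, i ≠ j → j ≠ k → i ≠ k → (i = 0 ∧ j = 1 ∧ k = 2) ∨
        (i = 0 ∧ j = 2 ∧ k = 1) ∨ (i = 1 ∧ j = 0 ∧ k = 2) ∨ (i = 1 ∧ j = 2 ∧ k = 0) ∨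
        (i = 2 ∧ j = 0 ∧ k = 1) ∨ (i = 2 ∧ j = 1 ∧ k = 0) := by decide
    have hs2 : (![1, 1, -1] : Fin 3 → K) i * (w i : K) ^ n + (![1, 1, -1] : Fin 3 → K) j * (w j : K) ^ n +
        (![1, 1, -1] : Fin 3 → K) k * (w k : K) ^ n = 0 := by
      have e0 : (![1, 1, -1] : Fin 3 → K) 0 = 1 := rfl
      have e1 : (![1, 1, -1] : Fin 3 → K) 1 = 1 := rfl
      have e2 : (![1, 1, -1] : Fin 3 → K) 2 = -1 := rfl
      rcases hall i j k hij hjk hik with h | h | h | h | h | h <;> obtain ⟨rfl, rfl, rfl⟩ := h <;>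
        rw [e0, e1, e2] <;> linear_combination heqK
    have hmax : ∀ v : AbsoluteValue K ℝ, max (max (v (w i : K)) (v (w j : K))) (v (w k : K)) =
        max (max (v (w 0 : K)) (v (w 1 : K))) (v (w 2 : K)) := by
      intro v
      rcases hall i j k hij hjk hik with h | h | h | h | h | h <;> obtain ⟨rfl, rfl, rfl⟩ := h <;>
        simp only [max_def] <;> split_ifs <;> linarith
    have key := h1 K hKD _ _ _ (w i : K) (w j) (w k) n (hs1 i) (hs1 j) (hs1 k) (hwK i) (hwK j) (hwK k)
      hs2 (by
        intro m hm h2 h3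
        apply hnt
        have hj : (w j : K) ^ m ≠ 0 := pow_ne_zero _ (hwK j)
        have hi' : (w i : K) ^ m = (w j : K) ^ m := by
          rw [div_pow, div_eq_one_iff_eq hj] at h2
          exact h2
        have hk' : (w k : K) ^ m = (w j : K) ^ m := by
          rw [div_pow, div_eq_one_iff_eq hj] at h3
          exact h3
        have hcase : ∀ i j k l : Fin 3, i ≠ j → j ≠ k → i ≠ k → l = i ∨ l = j ∨ l = k := by decide
        have hall' : ∀ l : Fin 3, (w l : K) ^ m = (w j : K) ^ m := by
          intro l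
          rcases hcase i j k l hij hjk hik with h | h | h
          · rw [h, hi']
          · rw [h]
          · rw [h, hk']
        refine ⟨m, hm, ?_, ?_⟩
        · rw [div_pow, div_eq_one_iff_eq (pow_ne_zero _ (hwK 2)), hall' 0, hall' 2]
        · rw [div_pow, div_eq_one_iff_eq (pow_ne_zero _ (hwK 2)), hall' 1, hall' 2]) (by omega) S hS
    have hG : (fun v : AbsoluteValue K ℝ => max (max (v (w i : K)) (v (w j : K))) (v (w k : K)) /
        v (w i : K)) = ratio w i := by
      funext v
      rw [hmax v, ratio]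
    rw [hG] at key
    exact key
  refine ⟨hA, ?_⟩
  intro i
  have hNpos : 0 < absNorm (w i) := by
    rw [hnorm i]
    have : Ideal.absNorm (Ideal.span {w i}) ≠ 0 := by
      rw [Ne, Ideal.absNorm_eq_zero_iff, Ideal.span_singleton_eq_bot]
      exact hw i
    positivity
  have harch : archPart w i * absNorm (w i) = height w * content w := by
    have e1 : archPart w i = ∏ σ : K →+* ℂ, ratio w i (InfinitePlace.mk σ).1 := by
      rw [archPart]
      exact Run7.h197.D.prod_mk' (fun v : InfinitePlace K => ratio w i v.1)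
    rw [e1, hnorm i, ← Run7.h197.D.prod_norm' (w i), hht, content, ← Run7.h197.D.height_vec' w hw0,
      ← Finset.prod_mul_distrib]
    refine Finset.prod_congr rfl fun σ _ => ?_
    have e2 : ∀ x : K, (InfinitePlace.mk σ).1 x = ‖σ x‖ := fun x => rfl
    have hσ : 0 < ‖σ (w i : K)‖ := norm_pos_iff.2 ((map_ne_zero σ).2 (hwK i))
    rw [ratio, e2, e2, e2, e2, div_mul_cancel₀ _ hσ.ne']
    apply le_antisymm
    · apply max_le (max_le _ _)
      · exact le_ciSup (f := fun j => ‖σ (w j : K)‖) (Set.finite_range _).bddAbove 2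
      · exact le_ciSup (f := fun j => ‖σ (w j : K)‖) (Set.finite_range _).bddAbove 0
      · exact le_ciSup (f := fun j => ‖σ (w j : K)‖) (Set.finite_range _).bddAbove 1
    · apply ciSup_le
      intro l
      fin_cases l
      · exact (le_max_left _ _).trans (le_max_left _ _)
      · exact (le_max_right _ _).trans (le_max_left _ _)
      · exact le_max_right _ _
  have harch1 : 1 ≤ archPart w i := by
    rw [archPart]
    calc (1 : ℝ) = ∏ _v : InfinitePlace K, (1 : ℝ) := Finset.prod_const_one.symm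
      _ ≤ _ := Finset.prod_le_prod (fun _ _ => zero_le_one) fun v _ =>
          one_le_pow₀ (one_le_ratio (hw i) _)
  have hdiv : ∀ j k : Fin 3, mulHeight₁ ((w k : K) / w j) ≤ height w := by
    intro j k
    rw [mulHeight₁_div_eq_mulHeight, hht]
    have h1 := mulHeight_comp_le (![k, j] : Fin 2 → Fin 3) (fun l => (w l : K))
    have h2 : ((fun l => (w l : K)) ∘ (![k, j] : Fin 2 → Fin 3)) = ![(w k : K), (w j : K)] := by
      funext t
      fin_cases t <;> rfl
    rw [h2] at h1
    exact h1
  have hother : ∀ i : Fin 3, ∃ j k : Fin 3, i ≠ j ∧ j ≠ k ∧ i ≠ k := by decide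
  have key : height w ^ (M - 1) * (content w * part S w i) ^ M ≤ absNorm (w i) ^ M := by
    obtain ⟨j, k, hij, hjk, hik⟩ := hother i
    have h3 := (hA i j k hij hjk hik).trans (hdiv j k)
    have h4 : height w * (height w ^ (M - 1) * (content w * part S w i) ^ M) ≤
        height w * absNorm (w i) ^ M := by
      calc height w * (height w ^ (M - 1) * (content w * part S w i) ^ M)
          = (height w ^ (M - 1 + 1)) * (content w * part S w i) ^ M := by
            rw [pow_succ]
            ring
        _ = (archPart w i * part S w i) ^ M * absNorm (w i) ^ M := by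
            rw [Nat.sub_add_cancel hM, ← mul_pow, ← mul_pow]
            congr 1
            linear_combination -(part S w i) * harch
        _ ≤ height w * absNorm (w i) ^ M := mul_le_mul_of_nonneg_right h3 (by positivity)
    exact le_of_mul_le_mul_left h4 (by linarith)
  refine ⟨?_, key, ?_⟩
  · rw [← harch]
    exact le_mul_of_one_le_left hNpos.le harch1
  · intro hK2 hn6
    refine le_trans (mul_le_mul_of_nonneg_right ?_ (pow_nonneg (mul_nonneg hc0 (hpart0 i)) _)) key
    rw [pow_mul]
    apply pow_le_pow_left₀ (by positivity)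
    rcases Pool.Agent.W7.FH.quad_final hK2 n (by omega) hn6 (w 0 : K) (w 1) (w 2) heqK (hwK 0) (hwK 1)
      (hwK 2) with ⟨ζ, hζ, e1, e2⟩ | h
    · exfalso
      apply hnt
      have hζ0 : ζ ≠ 0 := hζ.ne_zero (by norm_num)
      refine ⟨6, by norm_num, ?_, ?_⟩
      · rw [e2, div_pow, mul_pow, hζ.pow_eq_one, mul_one, div_self (pow_ne_zero _ (hwK 0))]
      · rw [e1, e2, div_pow, mul_pow, mul_pow, hζ.pow_eq_one, ← pow_mul, mul_comm 2 6, pow_mul,
          hζ.pow_eq_one, one_pow, mul_one, div_self (pow_ne_zero _ (hwK 0))]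
    · exact h.2.1

end Pool.Agent.Results.MP_50a406_nt.SizesOfTheTerms
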