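import Pool.Agent.Run7.h992.Main

/-!
# Exponents divisible by `3 p`, `p` a regular prime, over all quadratic fields

Let `p ≥ 11` be a regular prime (`p` does not divide the class number of the field of `p`-th roots of
unity) and let `n` be divisible by `3 p`. Then `x ^ n + y ^ n = z ^ n` has only solutions with
`x y z = 0` in every quadratic field `K`. There is no condition on `K`, and first and second case are
both excluded.

Proof. Let `n = 3 p`. The point `(x ^ p : y ^ p : - z ^ p)` of the Fermat cubic and its conjugate are
on a line over `ℚ`, which meets the cubic in a third, rational point. So the line contains one of the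
three rational points with a coordinate zero, and after a permutation `x ^ p + y ^ p = r z ^ p` with
`r` rational. Then `(x / z) ^ p`, `(y / z) ^ p` are conjugate, so `x / z`, `y / z` are conjugate, and for
their product `s` we have `3 r s ^ p = r ^ 3 + 1`, up to signs. Let `r = - a / b`. By unique factorization
there is a nontrivial solution of Fermat's equation with the exponent `p` in `ℚ`, which is excluded
by Kummer's theorem, or `a = A ^ p`, `b = 3 ^ ((p - 1) / 2) B ^ p`, `a - b = C ^ p` and
`a ^ 2 + a b + b ^ 2 = D ^ p`. In this last case let `a - ω b = γ ^ p` in the Eisenstein integers, let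
`γ - γ'` be `v √(-3)`, `γ'` the conjugate, and `t` the sum of `ω₁ γ` and its conjugate, `ω₁ ^ p = ω`.
Let `ζ` be a `p`-th root of unity. The numbers

  `D ± 3 v B ζ + 3 B ^ 2 ζ ^ 2`,  `C ^ 2 + C t ζ + D ζ ^ 2`,  `A - C ζ`

are units times `p`-th powers, if `p` does not divide `D`, `D`, `A B C` respectively. So are the
quotients of `T - (1 - ζ ^ i) (1 - ζ ^ (-i)) N` by `(1 - ζ) ^ 2` for `(T, N) = (- 3 v ^ 2, - D)` if `p`
divides `B`, and for `(T, N) = (t ^ 2, D)` if `p` divides `C`. In the two last cases Kummer's lemma gives
a solution of his equation `x ^ p + y ^ p = ε ((1 - ζ) ^ m z) ^ p` in the integers of the field of `p`-th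
roots of unity, which is excluded by descent. In the other cases the action of the complex
conjugation gives `D = 3 B ^ 2` modulo `p` if `p` divides `A`; `C ^ 2 = D` modulo `p` if `p` does not
divide `A B C D`; and `A ^ 2 = C ^ 2` modulo `p` if `p` divides `D`. With
`a = A`, `b ^ 2 = B ^ 2`, `a - b = C`, `a ^ 2 + a b + b ^ 2 = D` modulo `p` this gives
`2 b ^ 2 = 0`, `3 a b = 0`, `7 a ^ 2 = 0` modulo `p`, a contradiction.
-/

set_option autoImplicit false

namespace Pool.Agent.Results.MP_50a406_nt.ThreeTimesRegular

open NumberField

theorem result (K : Type) [Field K] [NumberField K] (hK : Module.finrank ℚ K = 2)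
    (p n : ℕ) (hp : p.Prime) (h11 : 11 ≤ p)
    (hreg : ¬ p ∣ classNumber (CyclotomicField p ℚ)) (hn : 3 * p ∣ n)
    (x y z : K) (h : x ^ n + y ^ n = z ^ n) : x = 0 ∨ y = 0 ∨ z = 0 :=
  Run7.h992.final hK hp h11 hreg hn h

end Pool.Agent.Results.MP_50a406_nt.ThreeTimesRegular
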